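import Mathlib

set_option autoImplicit false

namespace Pool.Agent.helper62.GR

open Polynomial

variable (F : Type*) [Field F] (K : Type*) [Field K] [Algebra F[X] K] [Algebra (RatFunc F) K]
  [IsScalarTower F[X] (RatFunc F) K] [FiniteDimensional (RatFunc F) K]
  [Algebra.IsSeparable (RatFunc F) K]

open scoped TensorProduct in
/-- The derivation of a finite separable extension of `F(t)` extending `d / dt`. -/
theorem exists_der : ∃ d : Derivation ℤ K K, ∀ f : F[X],
    d (algebraMap F[X] K f) = algebraMap F[X] K (derivative f) := by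
  letI : Algebra F K := ((algebraMap F[X] K).comp C).toAlgebra
  haveI : IsScalarTower F F[X] K := IsScalarTower.of_algebraMap_eq (fun _ => rfl)
  haveI : Algebra.FormallyEtale F[X] (RatFunc F) :=
    Algebra.FormallyEtale.of_isLocalization (nonZeroDivisors F[X])
  haveI : Algebra.FormallyEtale (RatFunc F) K := Algebra.FormallyEtale.of_isSeparable _ _
  haveI : Algebra.FormallyEtale F[X] K := Algebra.FormallyEtale.comp F[X] (RatFunc F) K
  let e := KaehlerDifferential.tensorKaehlerEquivOfFormallyEtale F F[X] K
  let l : Ω[F[X]⁄F] →ₗ[F[X]] K :=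
    (Algebra.linearMap F[X] K).comp (KaehlerDifferential.polynomialEquiv F).toLinearMap
  let φ : Ω[K⁄F] →ₗ[K] K := (l.liftBaseChange K).comp e.symm.toLinearMap
  refine ⟨(φ.compDer (KaehlerDifferential.D F K)).restrictScalars ℤ, fun f => ?_⟩
  show (l.liftBaseChange K) (e.symm (KaehlerDifferential.D F K (algebraMap F[X] K f))) = _
  rw [KaehlerDifferential.tensorKaehlerEquivOfFormallyEtale_symm_D_algebraMap]
  simp [l]

end Pool.Agent.helper62.GR
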