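import Mathlib
import Pool.Agent.helper62.GR.Der

set_option autoImplicit false

namespace Pool.Agent.helper62.GR

open Polynomial

variable (F : Type*) [Field F] (p : ℕ) [Fact p.Prime] [CharP F p]

theorem poly_pow [PerfectField F] (f : F[X]) (hf : derivative f = 0) : ∃ e : F[X], e ^ p = f := by
  have hp : p ≠ 0 := (Fact.out : p.Prime).ne_zero
  haveI : ExpChar F p := ExpChar.prime (Fact.out)
  have h1 := expand_contract p hf hp
  rw [polynomial_expand_eq] at h1
  exact ⟨_, h1⟩

variable (K : Type*) [Field K] [Algebra F[X] K] [Algebra (RatFunc F) K]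
  [IsScalarTower F[X] (RatFunc F) K] [FiniteDimensional (RatFunc F) K]
  [Algebra.IsSeparable (RatFunc F) K]

theorem algInj : Function.Injective (algebraMap F[X] K) := by
  rw [IsScalarTower.algebraMap_eq F[X] (RatFunc F) K]
  exact (algebraMap (RatFunc F) K).injective.comp (IsFractionRing.injective F[X] (RatFunc F))

include F in
theorem charK : CharP K p :=
  charP_of_injective_ringHom (f := (algebraMap F[X] K).comp C)
    ((algInj F K).comp (C_injective)) p

include F in
theorem d_pow (d : Derivation ℤ K K) (x : K) : d (x ^ p) = 0 := by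
  haveI := charK F p K
  rw [Derivation.leibniz_pow]
  simp

/-- The kernel of the derivation is the set of `p`-th powers. -/
theorem ker [PerfectField F] (d : Derivation ℤ K K)
    (hd : ∀ f : F[X], d (algebraMap F[X] K f) = algebraMap F[X] K (derivative f))
    (u : K) (hu : d u = 0) : ∃ s : K, s ^ p = u := by
  haveI : CharP K p := charK F p K
  haveI : CharP (RatFunc F) p := charP_of_injective_ringHom
    (f := (algebraMap F[X] (RatFunc F)).comp C)
    ((IsFractionRing.injective F[X] (RatFunc F)).comp (C_injective)) p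
  haveI : ExpChar (RatFunc F) p := ExpChar.prime (Fact.out)
  have hsep : IntermediateField.adjoin (RatFunc F) {u} =
      IntermediateField.adjoin (RatFunc F) {u ^ p} :=
    IntermediateField.adjoin_simple_eq_adjoin_pow_expChar_of_isSeparable' (RatFunc F) K u p
  have hmem : u ∈ IntermediateField.adjoin (RatFunc F) {u ^ p} := by
    rw [← hsep]; exact IntermediateField.mem_adjoin_simple_self _ _
  have hint : IsIntegral (RatFunc F) (u ^ p) := Algebra.IsIntegral.isIntegral _
  set n := (minpoly (RatFunc F) (u ^ p)).natDegree with hn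
  obtain ⟨q, hq1, hq2⟩ :=
    (IntermediateField.adjoin.powerBasis hint).exists_eq_aeval ⟨u, hmem⟩
  rw [IntermediateField.adjoin.powerBasis_dim] at hq1
  have hq3 : u = aeval (u ^ p) q := by
    have h := congrArg (IntermediateField.val (IntermediateField.adjoin (RatFunc F) {u ^ p})) hq2
    rw [← Polynomial.aeval_algHom_apply, IntermediateField.adjoin.powerBasis_gen] at h
    simpa using h
  obtain ⟨b, hb, hbq⟩ :=
    IsLocalization.integerNormalization_spec (nonZeroDivisors F[X]) q
  set Q0 := IsLocalization.integerNormalization (nonZeroDivisors F[X]) q with hQ0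
  have hb0 : b ≠ 0 := nonZeroDivisors.ne_zero hb
  have hdeg : Q0.natDegree < n := by
    have h1 : (Q0.map (algebraMap F[X] (RatFunc F))).natDegree ≤ q.natDegree := by
      rw [hbq]; exact natDegree_smul_le _ _
    rw [natDegree_map_eq_of_injective (IsFractionRing.injective F[X] (RatFunc F))] at h1
    exact lt_of_le_of_lt h1 hq1
  -- expansion with polynomial coefficients
  have hexp : ∑ i : Fin n, algebraMap F[X] K (b ^ (p - 1) * Q0.coeff i) * (u ^ p) ^ (i : ℕ) =
      algebraMap F[X] K b ^ p * u := by
    have h1 : aeval (u ^ p) Q0 = algebraMap F[X] K b * u := by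
      have h2 : aeval (u ^ p) (Q0.map (algebraMap F[X] (RatFunc F))) = aeval (u ^ p) Q0 :=
        aeval_map_algebraMap _ _ _
      rw [← h2, hbq, ← IsScalarTower.algebraMap_smul (RatFunc F) b q, map_smul, ← hq3,
        Algebra.smul_def, ← IsScalarTower.algebraMap_apply]
    have h3 := aeval_eq_sum_range' hdeg (u ^ p)
    rw [h1, Finset.sum_range] at h3
    have hp1 : algebraMap F[X] K b ^ p = algebraMap F[X] K (b ^ (p - 1)) * algebraMap F[X] K b := by
      rw [← map_mul, ← pow_succ, Nat.sub_add_cancel (Fact.out : p.Prime).one_lt.le, map_pow]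
    rw [hp1, mul_assoc, h3, Finset.mul_sum]
    refine Finset.sum_congr rfl fun i _ => ?_
    rw [Algebra.smul_def, map_mul, mul_assoc]
  have hder : ∑ i : Fin n, algebraMap F[X] K (derivative (b ^ (p - 1) * Q0.coeff i)) *
      (u ^ p) ^ (i : ℕ) = 0 := by
    have h1 := congrArg d hexp
    rw [map_sum, Derivation.leibniz, hu, d_pow F p K d, smul_zero, smul_zero, add_zero] at h1
    rw [← h1]
    refine Finset.sum_congr rfl fun i _ => ?_
    have h2 : (u ^ p) ^ (i : ℕ) = (u ^ (i : ℕ)) ^ p := by rw [← pow_mul, ← pow_mul, mul_comm]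
    rw [Derivation.leibniz, h2, d_pow F p K d, smul_zero, zero_add, hd, smul_eq_mul, mul_comm]
  have hlin := Fintype.linearIndependent_iff.1 (linearIndependent_pow (K := RatFunc F) (u ^ p))
    (fun i => algebraMap F[X] (RatFunc F) (derivative (b ^ (p - 1) * Q0.coeff i))) (by
      rw [← hder]
      refine Finset.sum_congr rfl fun i _ => ?_
      rw [Algebra.smul_def, ← IsScalarTower.algebraMap_apply])
  have hz : ∀ i : Fin n, ∃ e : F[X], e ^ p = b ^ (p - 1) * Q0.coeff i := by
    intro i
    refine poly_pow F p _ ?_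
    exact (map_eq_zero_iff _ (IsFractionRing.injective F[X] (RatFunc F))).1 (hlin i)
  choose e he using hz
  have hbK : algebraMap F[X] K b ≠ 0 := fun h => hb0 ((map_eq_zero_iff _ (algInj F K)).1 h)
  refine ⟨(∑ i : Fin n, algebraMap F[X] K (e i) * u ^ (i : ℕ)) / algebraMap F[X] K b, ?_⟩
  rw [div_pow, div_eq_iff (pow_ne_zero _ hbK), sum_pow_char, mul_comm u, ← hexp]
  refine Finset.sum_congr rfl fun i _ => ?_
  rw [mul_pow, ← map_pow, he, ← pow_mul, ← pow_mul, mul_comm p]

end Pool.Agent.helper62.GR
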