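import Mathlib
import Pool.Agent.helper62.GR.Ker

set_option autoImplicit false

namespace Pool.Agent.helper62.GR

open Polynomial

variable (F : Type*) [Field F] (K : Type*) [Field K] [Algebra F[X] K] [Algebra (RatFunc F) K]
  [IsScalarTower F[X] (RatFunc F) K] [FiniteDimensional (RatFunc F) K]
  [Algebra.IsSeparable (RatFunc F) K]

/-- A common denominator for the derivation. -/
theorem exists_delta (d : Derivation ℤ K K)
    (hd : ∀ f : F[X], d (algebraMap F[X] K f) = algebraMap F[X] K (derivative f)) :
    ∃ Δ : F[X], Δ ≠ 0 ∧ ∀ x : K, IsIntegral F[X] x →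
      IsIntegral F[X] (algebraMap F[X] K Δ * d x) := by
  classical
  haveI : Algebra.IsAlgebraic F[X] K :=
    (IsFractionRing.comap_isAlgebraic_iff (A := F[X]) (K := RatFunc F) (C := K)).mpr inferInstance
  haveI : Module.Finite F[X] (integralClosure F[X] K) :=
    IsIntegralClosure.finite F[X] (RatFunc F) K (integralClosure F[X] K)
  obtain ⟨s, hs⟩ := (Module.Finite.fg_top : (⊤ : Submodule F[X] (integralClosure F[X] K)).FG)
  obtain ⟨Δ, hΔ, h⟩ := Algebra.IsAlgebraic.exists_integral_multiples F[X]
    (s.image (fun x : integralClosure F[X] K => d (x : K)))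
  refine ⟨Δ, hΔ, fun x hx => ?_⟩
  have hmem : (⟨x, hx⟩ : integralClosure F[X] K) ∈
      Submodule.span F[X] (s : Set (integralClosure F[X] K)) := by
    rw [hs]; exact Submodule.mem_top
  have key : ∀ z ∈ Submodule.span F[X] (s : Set (integralClosure F[X] K)),
      IsIntegral F[X] (algebraMap F[X] K Δ * d (z : K)) := by
    intro z hz
    induction hz using Submodule.span_induction with
    | mem z hz =>
      have := h (d (z : K)) (Finset.mem_image_of_mem _ hz)
      rwa [Algebra.smul_def] at this
    | zero => simpa using isIntegral_zero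
    | add a b _ _ ha hb =>
      have : algebraMap F[X] K Δ * d ((a + b : integralClosure F[X] K) : K) =
          algebraMap F[X] K Δ * d (a : K) + algebraMap F[X] K Δ * d (b : K) := by
        push_cast; rw [map_add]; ring
      rw [this]; exact ha.add hb
    | smul f a _ ha =>
      have : algebraMap F[X] K Δ * d ((f • a : integralClosure F[X] K) : K) =
          algebraMap F[X] K f * (algebraMap F[X] K Δ * d (a : K)) +
            algebraMap F[X] K (Δ * derivative f) * (a : K) := by
        have h1 : ((f • a : integralClosure F[X] K) : K) = algebraMap F[X] K f * (a : K) := by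
          rw [← Algebra.smul_def]; rfl
        rw [h1, Derivation.leibniz, hd, map_mul, smul_eq_mul, smul_eq_mul]; ring
      rw [this]
      exact (isIntegral_algebraMap.mul ha).add (isIntegral_algebraMap.mul a.2)
  exact key _ hmem

/-- An irreducible polynomial dividing a polynomial in the integral closure divides it. -/
theorem dvd_of_dvd_int {P c : F[X]} (hP : Irreducible P) {w : K} (hw : IsIntegral F[X] w)
    (h : algebraMap F[X] K P * w = algebraMap F[X] K c) : P ∣ c := by
  by_contra hc
  have hco : IsCoprime P c := (hP.coprime_iff_not_dvd).2 hc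
  obtain ⟨a, b, hab⟩ := hco
  haveI : FaithfulSMul F[X] (integralClosure F[X] K) := by
    rw [faithfulSMul_iff_algebraMap_injective]
    intro x y hxy
    exact algInj F K (congrArg (fun z : integralClosure F[X] K => (z : K)) hxy)
  have h1 : algebraMap F[X] (integralClosure F[X] K) P *
      (algebraMap F[X] (integralClosure F[X] K) a +
        algebraMap F[X] (integralClosure F[X] K) b * ⟨w, hw⟩) = 1 := by
    apply Subtype.ext
    show algebraMap F[X] K P * (algebraMap F[X] K a + algebraMap F[X] K b * w) = 1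
    calc algebraMap F[X] K P * (algebraMap F[X] K a + algebraMap F[X] K b * w)
        = algebraMap F[X] K (a * P + b * c) := by
          rw [map_add, map_mul, map_mul, ← h]; ring
      _ = 1 := by rw [hab, map_one]
  have h2 : IsUnit (algebraMap F[X] (integralClosure F[X] K) P) := IsUnit.of_mul_eq_one _ h1
  exact hP.not_isUnit (isUnit_of_map_unit _ _ h2)

/-- Only finitely many monic irreducible polynomials divide a nonzero integral element. -/
theorem finite_div (y : K) (hy : IsIntegral F[X] y) (hy0 : y ≠ 0) :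
    {P : F[X] | P.Monic ∧ Irreducible P ∧
      ∃ w : K, IsIntegral F[X] w ∧ algebraMap F[X] K P * w = y}.Finite := by
  classical
  set Y : integralClosure F[X] K := ⟨y, hy⟩ with hY
  have hY0 : Y ≠ 0 := fun h => hy0 (congrArg (fun z : integralClosure F[X] K => (z : K)) h)
  have h1 : (Ideal.span {Y}).comap (algebraMap F[X] (integralClosure F[X] K)) ≠ ⊥ :=
    Ideal.comap_ne_bot_of_integral_mem hY0 (Ideal.mem_span_singleton_self Y)
      (Algebra.IsIntegral.isIntegral Y)
  obtain ⟨c, hc, hc0⟩ := Submodule.exists_mem_ne_zero_of_ne_bot h1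
  obtain ⟨v, hv⟩ := Ideal.mem_span_singleton.1 (Ideal.mem_comap.1 hc)
  have hv' : algebraMap F[X] K c = y * (v : K) :=
    congrArg (fun z : integralClosure F[X] K => (z : K)) hv
  refine ((UniqueFactorizationMonoid.normalizedFactors c).toFinset.finite_toSet).subset ?_
  rintro P ⟨hm, hP, w, hw, hPw⟩
  rw [Finset.mem_coe, Multiset.mem_toFinset, Polynomial.mem_normalizedFactors_iff hc0]
  refine ⟨hP, hm, dvd_of_dvd_int F K hP (hw.mul v.2) ?_⟩
  rw [← mul_assoc, hPw, hv']

/-- The main step: differentiate. -/
theorem main_step (d : Derivation ℤ K K)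
    (hd : ∀ f : F[X], d (algebraMap F[X] K f) = algebraMap F[X] K (derivative f))
    (Δ : F[X]) (hΔ : ∀ x : K, IsIntegral F[X] x → IsIntegral F[X] (algebraMap F[X] K Δ * d x))
    {ε : K} (hε : ε ≠ 0) {P : F[X]} (hP : Irreducible P) {m : ℕ} (hm : (m : F) ≠ 0)
    {s : F[X]} (hs : ¬ P ∣ s) {z : K} (hz : IsIntegral F[X] z)
    (h : algebraMap F[X] K s * (ε ^ m - 1) = algebraMap F[X] K P ^ 2 * z)
    {c : F[X]} (hc : IsIntegral F[X] (algebraMap F[X] K c * (d ε / ε))) :
    ∃ w : K, IsIntegral F[X] w ∧
      algebraMap F[X] K P * w = algebraMap F[X] K Δ * (algebraMap F[X] K c * (d ε / ε)) := by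
  set A := algebraMap F[X] K with hA
  have hm0 : m ≠ 0 := fun h0 => hm (by rw [h0]; simp)
  have hdm : d (ε ^ m) = A (C (m : F)) * ε ^ m * (d ε / ε) := by
    rw [Derivation.leibniz_pow]
    have h1 : ε ^ m = ε ^ (m - 1) * ε := by
      rw [← pow_succ, Nat.sub_add_cancel (Nat.pos_of_ne_zero hm0)]
    have h2 : A (C (m : F)) = (m : K) := by simp [hA]
    rw [h2, h1, nsmul_eq_mul, smul_eq_mul]
    field_simp
  have hd1 : d (ε ^ m - 1) = A (C (m : F)) * ε ^ m * (d ε / ε) := by
    rw [map_sub, hdm, Derivation.map_one_eq_zero, sub_zero]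
  have hder := congrArg d h
  rw [Derivation.leibniz, hd1, hd, Derivation.leibniz, Derivation.leibniz_pow, hd] at hder
  simp only [smul_eq_mul, nsmul_eq_mul, Nat.cast_ofNat, Nat.add_one_sub_one, pow_one] at hder
  set E := d ε / ε with hE
  have hP0 : ¬ P ∣ C (m : F) * s ^ 2 := by
    intro h1
    rcases hP.prime.dvd_or_dvd h1 with h2 | h2
    · exact hP.not_isUnit (isUnit_of_dvd_unit h2 (isUnit_C.2 (IsUnit.mk0 _ hm)))
    · exact hs (hP.prime.dvd_of_dvd_pow h2)
  obtain ⟨a, b, hab⟩ := (hP.coprime_iff_not_dvd).2 hP0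
  have hdz := hΔ z hz
  set w0 : K := A s * A c * (2 * A (derivative P) * A Δ * z + A P * (A Δ * d z)) -
    A (derivative s) * A P * A Δ * A c * z - A s * A (C (m : F)) * A P * z * (A Δ * (A c * E))
    with hw0
  have hint : ∀ f : F[X], IsIntegral F[X] (A f) := fun f => isIntegral_algebraMap
  have h2int : IsIntegral F[X] (2 : K) := by
    have h2 := hint 2
    rwa [map_ofNat] at h2
  have hw0int : IsIntegral F[X] w0 := by
    refine ((((hint s).mul (hint c)).mul ((((h2int.mul (hint _)).mul (hint _)).mul hz).add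
      ((hint P).mul hdz))).sub (((((hint _).mul (hint _)).mul (hint _)).mul (hint _)).mul hz)).sub
      (((((hint _).mul (hint _)).mul (hint _)).mul hz).mul ((hint _).mul hc))
  have hkey : A (C (m : F) * s ^ 2) * (A Δ * (A c * E)) = A P * w0 := by
    rw [map_mul, map_pow, hw0]
    linear_combination (A s * A Δ * A c) * hder - (A (derivative s) * A Δ * A c +
      A s * A (C (m : F)) * A Δ * A c * E) * h
  refine ⟨A a * (A Δ * (A c * E)) + A b * w0, ((hint a).mul ((hint _).mul hc)).add
    ((hint b).mul hw0int), ?_⟩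
  have h1 : A (a * P + b * (C (m : F) * s ^ 2)) = 1 := by rw [hab, map_one]
  rw [map_add, map_mul, map_mul] at h1
  linear_combination (A Δ * (A c * E)) * h1 - A b * hkey

end Pool.Agent.helper62.GR
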