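import Mathlib
import Pool.Agent.helper62.GR.Ker

set_option autoImplicit false

namespace Pool.Agent.helper62.GR

open Polynomial

variable {F : Type*} [Field F] [Finite F] (p : ℕ) [Fact p.Prime] [CharP F p]

/-- Powers of the cardinality act on polynomials by substitution. -/
theorem pow_card_pow (f : F[X]) (k : ℕ) :
    f ^ (Nat.card F ^ k) = expand F (Nat.card F ^ k) f := by
  classical
  haveI := Fintype.ofFinite F
  induction k with
  | zero => simp
  | succ k ih =>
    rw [pow_succ, pow_mul, ih, ← map_pow]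
    have h := FiniteField.expand_card (K := F) f
    rw [← Nat.card_eq_fintype_card] at h
    rw [← h, expand_expand]

/-- Taylor expansion of powers. -/
theorem taylor_pow (f : F[X]) (k : ℕ) {P H : F[X]} (hH : X ^ (Nat.card F ^ k) - X = P * H) :
    ∃ g : F[X], f ^ (Nat.card F ^ k) = f + derivative f * (P * H) + P ^ 2 * g := by
  have h1 : f ^ (Nat.card F ^ k) = (f.map C).eval (X + P * H) := by
    rw [pow_card_pow, ← hH, add_sub_cancel, expand_eq_comp_X_pow, eval_map, comp]
  obtain ⟨g, hg⟩ := binomExpansion (f.map C) X (P * H)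
  refine ⟨g * H ^ 2, ?_⟩
  rw [h1, hg, derivative_map, eval_map, eval_map, eval₂_C_X, eval₂_C_X]
  ring

theorem dvd_X_pow {P : F[X]} (hP : Irreducible P) :
    P ∣ X ^ (Nat.card F ^ (2 * P.natDegree)) - X :=
  hP.natDegree_dvd_iff_dvd_X_pow_card_pow_sub_X.1 (Dvd.intro_left 2 rfl)

section Ring

variable {D : F[X]}

theorem charQ : CharP (QuadraticAlgebra F[X] D 0) p :=
  charP_of_injective_ringHom
    (f := (algebraMap F[X] (QuadraticAlgebra F[X] D 0)).comp C)
    (QuadraticAlgebra.algebraMap_injective.comp C_injective) p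

theorem omega_pow (k : ℕ) : (QuadraticAlgebra.omega : QuadraticAlgebra F[X] D 0) ^ (2 * k + 1) =
    algebraMap F[X] (QuadraticAlgebra F[X] D 0) (D ^ k) * QuadraticAlgebra.omega := by
  have h : (QuadraticAlgebra.omega : QuadraticAlgebra F[X] D 0) * QuadraticAlgebra.omega =
      algebraMap F[X] (QuadraticAlgebra F[X] D 0) D := by
    apply QuadraticAlgebra.ext <;> simp
  rw [pow_succ, pow_mul, pow_two, h, map_pow]

theorem pow_q (ε : QuadraticAlgebra F[X] D 0) {j k : ℕ} (hk : p ^ j = 2 * k + 1) :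
    ε ^ (p ^ j) = ⟨ε.re ^ (p ^ j), ε.im ^ (p ^ j) * D ^ k⟩ := by
  haveI : CharP (QuadraticAlgebra F[X] D 0) p := charQ p
  haveI : ExpChar (QuadraticAlgebra F[X] D 0) p := ExpChar.prime Fact.out
  have h : ε = algebraMap F[X] _ ε.re + algebraMap F[X] _ ε.im * QuadraticAlgebra.omega := by
    apply QuadraticAlgebra.ext <;> simp
  conv_lhs => rw [h]
  rw [add_pow_expChar_pow, mul_pow, ← map_pow, ← map_pow]
  nth_rewrite 3 [hk]
  rw [omega_pow, ← mul_assoc, ← map_mul]
  apply QuadraticAlgebra.ext <;> simp [-map_pow, -map_mul]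

/-- `2 D` times the derivation extending `d / dt`. -/
noncomputable def TD (D : F[X]) : Derivation ℤ (QuadraticAlgebra F[X] D 0) (QuadraticAlgebra F[X] D 0) :=
  Derivation.mk'
    { toFun := fun z => ⟨2 * D * derivative z.re, 2 * D * derivative z.im + derivative D * z.im⟩
      map_add' := fun x y => by
        apply QuadraticAlgebra.ext <;> simp <;> ring
      map_smul' := fun n x => by
        apply QuadraticAlgebra.ext <;> simp <;> ring }
    (fun x y => by
      apply QuadraticAlgebra.ext <;> simp <;> ring)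

theorem TD_re (z : QuadraticAlgebra F[X] D 0) : (TD D z).re = 2 * D * derivative z.re := rfl

theorem TD_im (z : QuadraticAlgebra F[X] D 0) :
    (TD D z).im = 2 * D * derivative z.im + derivative D * z.im := rfl

/-- Differentiating a congruence modulo `P ^ 2`. -/
theorem diff_step {ε : QuadraticAlgebra F[X] D 0} (hε : IsUnit ε) {P : F[X]} {m : ℕ}
    (hm : ¬ p ∣ m)
    (h : algebraMap F[X] (QuadraticAlgebra F[X] D 0) P ^ 2 ∣ ε ^ m - 1) :
    P ∣ 2 * D * derivative ε.re ∧ P ∣ 2 * D * derivative ε.im + derivative D * ε.im := by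
  obtain ⟨z, hz⟩ := h
  have h1 := congrArg (TD D) hz
  rw [map_sub, Derivation.leibniz_pow, Derivation.map_one_eq_zero, sub_zero, Derivation.leibniz,
    Derivation.leibniz_pow] at h1
  have hmF : (m : F) ≠ 0 := fun h => hm ((CharP.cast_eq_zero_iff F p m).1 h)
  have hu : IsUnit ((m : QuadraticAlgebra F[X] D 0) * ε ^ (m - 1)) := by
    refine IsUnit.mul ?_ (hε.pow _)
    have h2 : (m : QuadraticAlgebra F[X] D 0) =
        algebraMap F[X] (QuadraticAlgebra F[X] D 0) (C (m : F)) := by
      simp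
    rw [h2]
    exact ((isUnit_C.2 (IsUnit.mk0 _ hmF)).map _)
  have h3 : algebraMap F[X] (QuadraticAlgebra F[X] D 0) P ∣
      ((m : QuadraticAlgebra F[X] D 0) * ε ^ (m - 1)) * TD D ε := by
    have h4 : ((m : QuadraticAlgebra F[X] D 0) * ε ^ (m - 1)) * TD D ε = m • ε ^ (m - 1) • (TD D) ε := by
      rw [nsmul_eq_mul, smul_eq_mul, mul_assoc]
    rw [h4, h1]
    refine dvd_add ?_ ?_
    · rw [smul_eq_mul, pow_two, mul_assoc]; exact dvd_mul_right _ _
    · rw [smul_eq_mul, nsmul_eq_mul, smul_eq_mul, Nat.add_one_sub_one, pow_one]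
      exact ⟨z * (((2 : ℕ) : QuadraticAlgebra F[X] D 0) * TD D (algebraMap F[X] _ P)), by ring⟩
  have h5 := (hu.dvd_mul_left).1 h3
  rw [QuadraticAlgebra.algebraMap_dvd_iff, TD_re, TD_im] at h5
  exact h5

end Ring

end Pool.Agent.helper62.GR
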