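import Mathlib
import Pool.Agent.helper62.GR.Quad

set_option autoImplicit false

namespace Pool.Agent.helper62.GR

open Polynomial

variable {F : Type*} [Field F] [Finite F] (p : ℕ) [Fact p.Prime] [CharP F p] {D : F[X]}

include p in
theorem card_pow : ∃ r : ℕ, 0 < r ∧ Nat.card F = p ^ r := by
  haveI := Fintype.ofFinite F
  obtain ⟨n, _, hn⟩ := FiniteField.card F p
  exact ⟨n, n.pos, by rw [Nat.card_eq_fintype_card, hn]⟩

/-- The Frobenius step. -/
theorem frob_step (hp2 : p ≠ 2) (ε : QuadraticAlgebra F[X] D 0) {P : F[X]} (hP : Irreducible P)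
    (hPD : ¬ P ∣ D) (h1 : P ∣ derivative ε.re)
    (h2 : P ∣ 2 * D * derivative ε.im + derivative D * ε.im) :
    algebraMap F[X] (QuadraticAlgebra F[X] D 0) P ^ 2 ∣
      ε ^ (Nat.card F ^ (2 * P.natDegree)) - ε := by
  obtain ⟨r, hr, hq⟩ := card_pow (F := F) p
  have hodd : Odd p := (Fact.out : p.Prime).odd_of_ne_two hp2
  have h2F : (2 : F) ≠ 0 := by
    intro h
    have h3 : ((2 : ℕ) : F) = 0 := by exact_mod_cast h
    have h4 := (CharP.cast_eq_zero_iff F p 2).1 h3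
    have h5 := Nat.le_of_dvd (by norm_num) h4
    have h6 := (Fact.out : p.Prime).two_le
    exact hp2 (by omega)
  have hP2D : ¬ P ∣ 2 * D := by
    intro h
    rcases hP.prime.dvd_or_dvd h with h3 | h3
    · have h4 : (2 : F[X]) = C 2 := (map_ofNat C 2).symm
      rw [h4] at h3
      exact hP.not_isUnit (isUnit_of_dvd_unit h3 (isUnit_C.2 (IsUnit.mk0 _ h2F)))
    · exact hPD h3
  set n := P.natDegree with hn
  set N := Nat.card F ^ n with hN
  have hMN : Nat.card F ^ (2 * n) = N * N := by rw [hN, ← pow_add, two_mul]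
  have hNodd : Odd N := by rw [hN, hq]; exact (hodd.pow).pow
  obtain ⟨l, hl⟩ := hNodd
  -- the congruence for powers of `D`
  obtain ⟨H1, hH1⟩ := (hP.natDegree_dvd_iff_dvd_X_pow_card_pow_sub_X).1 (dvd_refl P.natDegree)
  obtain ⟨g0, hg0⟩ := taylor_pow D n hH1
  have hDN : P ∣ D ^ (N - 1) - 1 := by
    have h3 : P ∣ D * (D ^ (N - 1) - 1) := by
      have h4 : D * (D ^ (N - 1) - 1) = D ^ N - D := by
        have : D ^ N = D ^ (N - 1) * D := by rw [← pow_succ, Nat.sub_add_cancel (by omega)]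
        rw [this]; ring
      rw [h4, hg0]
      exact ⟨derivative D * H1 + P * g0, by ring⟩
    exact (hP.prime.dvd_or_dvd h3).resolve_left hPD
  set k := 2 * l * (l + 1) with hk
  have hMk : Nat.card F ^ (2 * n) = 2 * k + 1 := by rw [hMN, hl, hk]; ring
  have hDk : P ∣ D ^ k - 1 := by
    have h3 : D ^ k - 1 = (D ^ (N - 1)) ^ (l + 1) - 1 ^ (l + 1) := by
      rw [one_pow, ← pow_mul, hk]
      congr 2
      rw [hl, Nat.add_sub_cancel]
    rw [h3]
    exact hDN.trans (sub_dvd_pow_sub_pow _ _ _)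
  obtain ⟨K0, hK0⟩ := hDk
  have hK0' : D ^ k = 1 + P * K0 := by rw [← hK0]; ring
  obtain ⟨H, hH⟩ := dvd_X_pow hP
  rw [← hn] at hH
  obtain ⟨g, hg⟩ := taylor_pow D (2 * n) hH
  obtain ⟨g1, hg1⟩ := taylor_pow ε.re (2 * n) hH
  obtain ⟨g2, hg2⟩ := taylor_pow ε.im (2 * n) hH
  have hP0 : P ≠ 0 := hP.ne_zero
  have hA : P ∣ 2 * D * K0 - derivative D * H := by
    have h3 : D ^ (Nat.card F ^ (2 * n)) = D * (D ^ k) ^ 2 := by
      rw [hMk, pow_succ, mul_comm 2 k, pow_mul]; ring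
    rw [hg, hK0'] at h3
    have h4 : P * (2 * D * K0 - derivative D * H) = P * (P * (g - D * K0 ^ 2)) := by
      linear_combination -h3
    exact ⟨_, mul_left_cancel₀ hP0 h4⟩
  have hB : P ∣ derivative ε.im * H + ε.im * K0 := by
    have h3 : P ∣ 2 * D * (derivative ε.im * H + ε.im * K0) := by
      have h4 : 2 * D * (derivative ε.im * H + ε.im * K0) =
          (2 * D * derivative ε.im + derivative D * ε.im) * H +
            ε.im * (2 * D * K0 - derivative D * H) := by ring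
      rw [h4]
      exact dvd_add (h2.mul_right _) (hA.mul_left _)
    exact (hP.prime.dvd_or_dvd h3).resolve_left hP2D
  have hj : Nat.card F ^ (2 * n) = p ^ (r * (2 * n)) := by rw [hq, ← pow_mul]
  have hpow : ε ^ (Nat.card F ^ (2 * n)) = ⟨ε.re ^ (Nat.card F ^ (2 * n)),
      ε.im ^ (Nat.card F ^ (2 * n)) * D ^ k⟩ := by
    rw [hj]
    exact pow_q p ε (by rw [← hj, hMk])
  rw [hpow, ← map_pow, QuadraticAlgebra.algebraMap_dvd_iff]
  obtain ⟨a', ha'⟩ := h1
  obtain ⟨b', hb'⟩ := hB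
  constructor
  · show P ^ 2 ∣ ε.re ^ (Nat.card F ^ (2 * n)) - ε.re
    rw [hg1, ha']
    exact ⟨a' * H + g1, by ring⟩
  · show P ^ 2 ∣ ε.im ^ (Nat.card F ^ (2 * n)) * D ^ k - ε.im
    rw [hg2, hK0']
    refine ⟨b' + derivative ε.im * H * K0 + g2 * (1 + P * K0), ?_⟩
    linear_combination P * hb'

end Pool.Agent.helper62.GR
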