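import Mathlib
import Pool.Agent.helper62.GR.Frob

set_option autoImplicit false

namespace Pool.Agent.helper62.GR

open Polynomial

variable {F : Type*} [Field F] [Finite F] (p : ℕ) [Fact p.Prime] [CharP F p] {D : F[X]}

include p in
theorem two_ne (hp2 : p ≠ 2) : (2 : F) ≠ 0 := by
  intro h
  have h3 : ((2 : ℕ) : F) = 0 := by exact_mod_cast h
  have h4 := (CharP.cast_eq_zero_iff F p 2).1 h3
  have h5 := Nat.le_of_dvd (by norm_num) h4
  have h6 := (Fact.out : p.Prime).two_le
  exact hp2 (by omega)

/-- The case of vanishing derivative. -/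
theorem pth_power (hp2 : p ≠ 2) (hD : Squarefree D) (a b : F[X]) (ha : derivative a = 0)
    (hb : derivative D * b + 2 * D * derivative b = 0) :
    ∃ η : QuadraticAlgebra F[X] D 0, η ^ p = ⟨a, b⟩ := by
  obtain ⟨k, hk⟩ := (Fact.out : p.Prime).odd_of_ne_two hp2
  have hD0 : D ≠ 0 := hD.ne_zero
  have h2 : (2 : F) ≠ 0 := two_ne p hp2
  obtain ⟨a1, ha1⟩ := poly_pow F p a ha
  have hchar : (p : F[X]) = 0 := by
    have h3 : ((p : F) : F) = 0 := CharP.cast_eq_zero F p
    rw [← map_natCast C p, h3, map_zero]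
  -- `b * D ^ (k + 1)` is a `p`-th power
  have hder : derivative (b * D ^ (k + 1)) = 0 := by
    rw [derivative_mul, derivative_pow_succ]
    have h3 : C (2 : F) * (derivative b * D ^ (k + 1) +
        b * (C ((k : F) + 1) * D ^ k * derivative D)) = 0 := by
      have h4 : C (2 : F) * C ((k : F) + 1) = 1 := by
        rw [← C_mul]
        have h5 : (2 : F) * ((k : F) + 1) = 1 := by
          have h6 : ((p : ℕ) : F) = 0 := CharP.cast_eq_zero F p
          rw [hk] at h6
          push_cast at h6
          linear_combination h6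
        rw [h5, C_1]
      have h7 : C (2 : F) = (2 : F[X]) := map_ofNat C 2
      calc C (2 : F) * (derivative b * D ^ (k + 1) +
          b * (C ((k : F) + 1) * D ^ k * derivative D))
          = D ^ k * (C (2 : F) * D * derivative b) +
            (C (2 : F) * C ((k : F) + 1)) * (b * D ^ k * derivative D) := by ring
        _ = D ^ k * (derivative D * b + 2 * D * derivative b) := by rw [h4, h7]; ring
        _ = 0 := by rw [hb, mul_zero]
    exact (mul_eq_zero.1 h3).resolve_left (fun h => h2 (C_eq_zero.1 h))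
  obtain ⟨h, hh⟩ := poly_pow F p _ hder
  have hDh : D ∣ h := by
    refine (hD.dvd_pow_iff_dvd (Fact.out : p.Prime).ne_zero).1 ?_
    rw [hh]
    exact Dvd.intro_left (b * D ^ k) (by ring)
  obtain ⟨b1, hb1⟩ := hDh
  have hbeq : b = b1 ^ p * D ^ k := by
    have h3 : b * D ^ (k + 1) = (b1 ^ p * D ^ k) * D ^ (k + 1) := by
      rw [← hh, hb1, mul_pow]
      have : D ^ p = D ^ k * D ^ (k + 1) := by rw [← pow_add, hk]; ring_nf
      rw [this]; ring
    exact mul_right_cancel₀ (pow_ne_zero _ hD0) h3
  refine ⟨⟨a1, b1⟩, ?_⟩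
  have h4 := pow_q (D := D) p ⟨a1, b1⟩ (j := 1) (k := k) (by rw [pow_one, hk])
  rw [pow_one] at h4
  rw [h4, ha1, ← hbeq]

theorem quad (hp2 : p ≠ 2) (hD : Squarefree D) (hdeg : 0 < D.natDegree)
    (ε : QuadraticAlgebra F[X] D 0) (hε : IsUnit ε)
    (hnp : ¬ ∃ η : QuadraticAlgebra F[X] D 0, η ^ p = ε) :
    ε.im ≠ 0 ∧ ∃ v : F[X], v ≠ 0 ∧ ε.im * v = 2 * derivative ε.re ∧
      2 * v.natDegree + 2 ≤ D.natDegree ∧
      ∀ P : F[X], Irreducible P → ¬ P ∣ D →
        (P ∣ v → algebraMap F[X] (QuadraticAlgebra F[X] D 0) P ^ 2 ∣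
          ε ^ (Nat.card F ^ (2 * P.natDegree) - 1) - 1) ∧
        ((∃ m : ℕ, ¬ p ∣ m ∧
          algebraMap F[X] (QuadraticAlgebra F[X] D 0) P ^ 2 ∣ ε ^ m - 1) → P ∣ v) := by
  have h2 : (2 : F) ≠ 0 := two_ne p hp2
  have h2X : (2 : F[X]) = C 2 := (map_ofNat C 2).symm
  have h2unit : IsUnit (2 : F[X]) := by rw [h2X]; exact isUnit_C.2 (IsUnit.mk0 _ h2)
  set a := ε.re with ha
  set b := ε.im with hb
  have hεab : ε = ⟨a, b⟩ := rfl
  obtain ⟨c, hcu, hc⟩ := Polynomial.isUnit_iff.1 (QuadraticAlgebra.isUnit_iff_norm_isUnit.1 hε)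
  have hnorm : a * a - D * b * b = C c := by
    rw [hc, QuadraticAlgebra.norm_def]; ring
  set w := derivative D * b + 2 * D * derivative b with hw
  have hder : 2 * a * derivative a = b * w := by
    have h3 := congrArg derivative hnorm
    rw [derivative_C, derivative_sub, derivative_mul, derivative_mul, derivative_mul] at h3
    rw [hw]; linear_combination h3
  have hcop : IsCoprime a b := by
    refine ⟨C c⁻¹ * a, -(C c⁻¹ * D * b), ?_⟩
    have h3 : C c⁻¹ * C c = (1 : F[X]) := by
      rw [← C_mul, inv_mul_cancel₀ hcu.ne_zero, C_1]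
    linear_combination (C c⁻¹) * hnorm + h3
  have ha0 : a ≠ 0 := by
    intro h0
    have h5 : D ∣ C c := ⟨-(b * b), by rw [← hnorm, h0]; ring⟩
    have h3 : IsUnit D := isUnit_of_dvd_unit h5 (isUnit_C.2 hcu)
    exact hdeg.ne' (natDegree_eq_zero_of_isUnit h3)
  obtain ⟨v, hv⟩ : a ∣ w := by
    refine hcop.dvd_of_dvd_mul_left (Dvd.intro_left (2 * derivative a) ?_)
    linear_combination hder
  have hav : 2 * derivative a = b * v := by
    refine mul_left_cancel₀ ha0 ?_
    rw [← sub_eq_zero] at hder ⊢
    rw [← hder, hv]; ring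
  have hv0 : v ≠ 0 := by
    intro h0
    rw [h0, mul_zero] at hv hav
    have h3 : derivative a = 0 := by
      refine (mul_eq_zero.1 hav).resolve_left ?_
      rw [h2X]; exact fun h => h2 (C_eq_zero.1 h)
    obtain ⟨η, hη⟩ := pth_power p hp2 hD a b h3 hv
    exact hnp ⟨η, hη⟩
  have hb0 : b ≠ 0 := by
    intro h0
    have h3 : w = 0 := by rw [hw, h0]; simp
    rw [h3] at hv
    rcases mul_eq_zero.1 hv.symm with h4 | h4
    · exact ha0 h4
    · exact hv0 h4
  have hD0 : D ≠ 0 := hD.ne_zero
  refine ⟨hb0, v, hv0, hav.symm, ?_, ?_⟩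
  · -- degrees
    have h3 : 2 * a.natDegree = D.natDegree + 2 * b.natDegree := by
      have h4 : a * a = D * (b * b) + C c := by linear_combination hnorm
      have h5 := congrArg natDegree h4
      rw [natDegree_mul ha0 ha0, natDegree_add_C, natDegree_mul hD0 (mul_ne_zero hb0 hb0),
        natDegree_mul hb0 hb0] at h5
      omega
    have h4 : a.natDegree + v.natDegree = w.natDegree := by
      rw [hv, natDegree_mul ha0 hv0]
    have h5 : w.natDegree ≤ D.natDegree + b.natDegree - 1 := by
      rw [hw]
      refine (natDegree_add_le _ _).trans (max_le ?_ ?_)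
      · refine natDegree_mul_le.trans ?_
        have := natDegree_derivative_le D
        omega
      · by_cases hbd : b.natDegree = 0
        · rw [eq_C_of_natDegree_eq_zero hbd]
          simp
        · refine natDegree_mul_le.trans ?_
          have h6 := natDegree_derivative_le b
          have h7 : (2 * D).natDegree ≤ D.natDegree := by
            refine natDegree_mul_le.trans ?_
            rw [h2X, natDegree_C, zero_add]
          omega
    omega
  · intro P hP hPD
    constructor
    · intro hPv
      have h3 : P ∣ derivative ε.re := by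
        have h4 : P ∣ 2 * derivative a := by rw [hav]; exact hPv.mul_left _
        exact (h2unit.dvd_mul_left).1 h4
      have h4 : P ∣ 2 * D * derivative ε.im + derivative D * ε.im := by
        have h5 : 2 * D * derivative ε.im + derivative D * ε.im = a * v := by
          rw [← hv, hw]; ring
        rw [h5]; exact hPv.mul_left _
      have h5 := frob_step p hp2 ε hP hPD h3 h4
      have hM : 0 < Nat.card F ^ (2 * P.natDegree) := pow_pos Nat.card_pos _
      have h6 : ε ^ (Nat.card F ^ (2 * P.natDegree)) - ε =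
          ε * (ε ^ (Nat.card F ^ (2 * P.natDegree) - 1) - 1) := by
        have : ε ^ (Nat.card F ^ (2 * P.natDegree)) =
            ε * ε ^ (Nat.card F ^ (2 * P.natDegree) - 1) := by
          rw [← pow_succ', Nat.sub_add_cancel hM]
        rw [this]; ring
      rw [h6] at h5
      exact (hε.dvd_mul_left).1 h5
    · rintro ⟨m, hm, hdiv⟩
      obtain ⟨h3, h4⟩ := diff_step p hε hm hdiv
      have hP2D : ¬ P ∣ 2 * D := by
        intro h
        exact hPD ((h2unit.dvd_mul_left).1 h)
      have h5 : P ∣ derivative a := (hP.prime.dvd_or_dvd h3).resolve_left hP2D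
      have h6 : P ∣ b * v := by rw [← hav]; exact h5.mul_left _
      have h7 : P ∣ a * v := by
        rw [← hv, hw]
        have : derivative D * b + 2 * D * derivative b =
          2 * D * derivative ε.im + derivative D * ε.im := by ring
        rw [this]; exact h4
      obtain ⟨x, y, hxy⟩ := hcop
      have h8 : v = x * (a * v) + y * (b * v) := by linear_combination (-v) * hxy
      rw [h8]
      exact dvd_add (h7.mul_left _) (h6.mul_left _)

end Pool.Agent.helper62.GR
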