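import Mathlib
import Pool.Agent.helper62.GR.QMain

set_option autoImplicit false

namespace Pool.Agent.helper62.GR

open Polynomial

variable {F : Type*} [Field F] [Finite F] {D : F[X]}

/-- The criterion at the prime divisors of `D`. -/
theorem ram (hD : Squarefree D) (ε : QuadraticAlgebra F[X] D 0) (hε : IsUnit ε)
    (hb : ε.im ≠ 0) {v : F[X]} (hv : ε.im * v = 2 * derivative ε.re) {Q : F[X]}
    (hQ : Irreducible Q) (hQD : Q ∣ D) : Q ∣ v ↔ Q ∣ ε.im := by
  set a := ε.re with ha
  set b := ε.im with hb'
  obtain ⟨c, hcu, hc⟩ := Polynomial.isUnit_iff.1 (QuadraticAlgebra.isUnit_iff_norm_isUnit.1 hε)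
  have hnorm : a * a - D * b * b = C c := by
    rw [hc, QuadraticAlgebra.norm_def]; ring
  have hder : 2 * a * derivative a = b * (derivative D * b + 2 * D * derivative b) := by
    have h3 := congrArg derivative hnorm
    rw [derivative_C, derivative_sub, derivative_mul, derivative_mul, derivative_mul] at h3
    linear_combination h3
  have hav : a * v = derivative D * b + 2 * D * derivative b := by
    refine mul_left_cancel₀ hb ?_
    linear_combination hder + a * hv
  have hQa : ¬ Q ∣ a := by
    intro h
    have h3 : Q ∣ C c := by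
      rw [← hnorm]
      exact dvd_sub (h.mul_left _) ((hQD.mul_right _).mul_right _)
    exact hQ.not_isUnit (isUnit_of_dvd_unit h3 (isUnit_C.2 hcu))
  constructor
  · intro hQv
    have hsep : D.Separable := PerfectField.separable_iff_squarefree.2 hD
    have hQD' : ¬ Q ∣ derivative D := by
      intro h
      obtain ⟨x, y, hxy⟩ := hsep
      have h3 : Q ∣ 1 := by
        rw [← hxy]
        exact dvd_add (hQD.mul_left _) (h.mul_left _)
      exact hQ.not_isUnit (isUnit_of_dvd_one h3)
    have h3 : Q ∣ derivative D * b := by
      have h4 : derivative D * b = a * v - 2 * D * derivative b := by rw [hav]; ring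
      rw [h4]
      exact dvd_sub (hQv.mul_left _) ((hQD.mul_left _).mul_right _)
    exact (hQ.prime.dvd_or_dvd h3).resolve_left hQD'
  · intro hQb
    have h3 : Q ∣ a * v := by
      rw [hav]
      exact dvd_add (hQb.mul_left _) ((hQD.mul_left _).mul_right _)
    exact (hQ.prime.dvd_or_dvd h3).resolve_left hQa

end Pool.Agent.helper62.GR
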